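import Pool.Agent.Helper24.KK.GoalsA

/-!
# Project KK (MP_9a4587_an), packet COL: column sums
-/

set_option autoImplicit false

namespace Pool.Agent.Helper89.KK

open Finset Pool.Agent.Helper24.KK

theorem mv_eq {Φ : Type} [DecidableEq Φ] {s t : Φ} {S T : Finset Φ} (h : Mv s t S T) :
    S = insert s (T.erase t) := by
  obtain ⟨h1, h2, h3⟩ := h
  have h4 : t ∉ S.erase s := fun h => h2 (mem_of_mem_erase h)
  rw [h3, erase_insert h4, insert_erase h1]

theorem mv_mem {Φ : Type} [DecidableEq Φ] {s t : Φ} {S T : Finset Φ} (h : Mv s t S T) :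
    t ∈ T := by
  rw [h.2.2]
  exact mem_insert_self _ _

theorem ent_uniq {Φ Mm : Type} [DecidableEq Φ] {l : ℕ} {u v : ℕ → Mm → Φ} {n k : ℕ} {m : Mm}
    {I I' J : Ix Φ l} (h : Ent u v n k m I J) (h' : Ent u v n k m I' J) : I = I' := by
  refine Prod.ext (Subtype.ext ?_) (Subtype.ext ?_)
  · rw [mv_eq h.1, mv_eq h'.1]
  · rw [mv_eq h.2, mv_eq h'.2]

theorem wt_nonneg {Φ Mm : Type} [Fintype Φ] [DecidableEq Φ] [Fintype Mm] (l : ℕ) (x : ℕ → ℝ)
    (u v : ℕ → Mm → Φ) (Δ : ℝ) (n k : ℕ) (m : Mm) : 0 ≤ wt l x u v Δ n k m := by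
  unfold wt
  split_ifs
  · positivity
  · exact le_rfl

theorem wt_le {Φ Mm : Type} [Fintype Φ] [DecidableEq Φ] [Fintype Mm] (l : ℕ) (x : ℕ → ℝ)
    (u v : ℕ → Mm → Φ) (Δ : ℝ) (n k : ℕ) (m : Mm) (h : 0 < dz (Fintype.card Φ) l) :
    wt l x u v Δ n k m ≤ 2 / dz (Fintype.card Φ) l := by
  unfold wt
  split_ifs with h1
  · have h2 : (2 : ℝ) / dz (Fintype.card Φ) l = (dz (Fintype.card Φ) l / 2)⁻¹ := by
      rw [inv_div]
    rw [h2]
    exact inv_anti₀ (by positivity) h1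
  · positivity

open Classical in
theorem sum_kept {Φ Mm : Type} [Fintype Φ] [DecidableEq Φ] [Fintype Mm] [DecidableEq Mm]
    (l : ℕ) (x : ℕ → ℝ) (u v : ℕ → Mm → Φ) (Δ : ℝ) (h : 0 < dz (Fintype.card Φ) l)
    (n k : ℕ) (m : Mm) (J : Ix Φ l) :
    ∑ I : Ix Φ l, (if Kept x u v Δ n k m I J then wt l x u v Δ n k m else 0) ≤
      if cdeg x u v n J ≤ Δ ∧ (u k m ∈ J.1.1 ∧ v n m ∈ J.2.1) then
        2 / dz (Fintype.card Φ) l else 0 := by
  by_cases hex : ∃ I, Kept x u v Δ n k m I J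
  · obtain ⟨I, hI⟩ := hex
    rw [sum_eq_single I, if_pos hI, if_pos ⟨hI.2.2, mv_mem hI.1.1, mv_mem hI.1.2⟩]
    · exact wt_le l x u v Δ n k m h
    · intro I' _ hne
      rw [if_neg]
      intro h'
      exact hne (ent_uniq h'.1 hI.1)
    · intro h'
      exact absurd (mem_univ I) h'
  · push Not at hex
    rw [sum_eq_zero fun I _ => if_neg (hex I)]
    split_ifs <;> positivity

open Classical in
/-- Packet COL. -/
theorem col : COL := by
  intro Φ Mm _ _ _ _ l x u v Δ hΔ hdz n J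
  have h1 : ∀ I : Ix Φ l, |kA x u v Δ n I J| ≤ ∑ k ∈ range n, |x k| * ∑ m : Mm,
      (if Kept x u v Δ n k m I J then wt l x u v Δ n k m else 0) := by
    intro I
    unfold kA
    refine (abs_sum_le_sum_abs _ _).trans (le_of_eq ?_)
    refine sum_congr rfl fun k _ => ?_
    rw [abs_mul]
    congr 1
    refine abs_of_nonneg (sum_nonneg fun m _ => ?_)
    split_ifs
    · exact wt_nonneg l x u v Δ n k m
    · exact le_rfl
  have h2 : ∑ I : Ix Φ l, |kA x u v Δ n I J| ≤ ∑ k ∈ range n, |x k| * ∑ m : Mm,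
      (if cdeg x u v n J ≤ Δ ∧ (u k m ∈ J.1.1 ∧ v n m ∈ J.2.1) then
        2 / dz (Fintype.card Φ) l else 0) := by
    refine (sum_le_sum fun I _ => h1 I).trans ?_
    rw [sum_comm]
    refine sum_le_sum fun k _ => ?_
    rw [← mul_sum, sum_comm]
    exact mul_le_mul_of_nonneg_left (sum_le_sum fun m _ => sum_kept l x u v Δ hdz n k m J)
      (abs_nonneg _)
  refine h2.trans ?_
  by_cases hc : cdeg x u v n J ≤ Δ
  · have h3 : ∀ k ∈ range n, |x k| * ∑ m : Mm,
        (if cdeg x u v n J ≤ Δ ∧ (u k m ∈ J.1.1 ∧ v n m ∈ J.2.1) then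
          2 / dz (Fintype.card Φ) l else 0) =
        (|x k| * ((univ.filter fun m : Mm => u k m ∈ J.1.1 ∧ v n m ∈ J.2.1).card : ℝ)) *
          (2 / dz (Fintype.card Φ) l) := by
      intro k _
      simp only [hc, true_and]
      rw [← sum_filter, sum_const, nsmul_eq_mul]
      ring
    rw [sum_congr rfl h3, ← sum_mul]
    have h4 : ∑ k ∈ range n, |x k| *
        ((univ.filter fun m : Mm => u k m ∈ J.1.1 ∧ v n m ∈ J.2.1).card : ℝ) =
        cdeg x u v n J := by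
      unfold cdeg
      refine sum_congr rfl fun k _ => ?_
      congr 2
    rw [h4]
    have h5 : (2 * Δ / dz (Fintype.card Φ) l) = Δ * (2 / dz (Fintype.card Φ) l) := by ring
    rw [h5]
    exact mul_le_mul_of_nonneg_right hc (by positivity)
  · have h3 : ∀ k ∈ range n, |x k| * ∑ m : Mm,
        (if cdeg x u v n J ≤ Δ ∧ (u k m ∈ J.1.1 ∧ v n m ∈ J.2.1) then
          2 / dz (Fintype.card Φ) l else 0) = 0 := by
      intro k _
      simp [hc]
    rw [sum_congr rfl h3, sum_const_zero]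
    positivity

end Pool.Agent.Helper89.KK
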